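import Pool.Agent.H65.TwoSort

set_option autoImplicit false

open Pool.Agent.H65 TwoSortDefs

theorem Pool.Agent.Results.MP_2f8e94_al.Basis.result (R S A B ι : Type) (ar : ι → ℕ)
    [Ring R] [Ring S] [Finite R] [Finite S] [Finite ι]
    [AddCommGroup A] [Module R A] [AddCommGroup B] [Module S B] [Finite A] [Finite B]
    (F : ∀ i, (Fin (ar i) → A) → B) :
    ∃ (E1 : Set (T1 R × T1 R)) (E2 : Set (T2 R S ι ar × T2 R S ι ar)), E1.Finite ∧ E2.Finite ∧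
      (∀ p ∈ E1, ∀ ρ : ℕ → A, p.1.eval ρ = p.2.eval ρ) ∧
      (∀ p ∈ E2, ∀ (ρ : ℕ → A) (η : ℕ → B), p.1.eval F ρ η = p.2.eval F ρ η) ∧
      (∀ s t : T1 R, (∀ ρ : ℕ → A, s.eval ρ = t.eval ρ) → Der1 E1 s t) ∧
      (∀ s t : T2 R S ι ar, (∀ (ρ : ℕ → A) (η : ℕ → B), s.eval F ρ η = t.eval F ρ η) →
        Der2 E1 E2 s t) := by
  classical
  have := Fintype.ofFinite R
  have := Fintype.ofFinite ι
  exact TwoSort.main F
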